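import Mathlib
import Pool.Agent.H7.Flip

namespace Pool.Agent.Results.MP_1e5ebc_co.Extreme

open SimpleGraph Finset Pool.Agent.H7.Flip

theorem ind_one {V : Type} {H : SimpleGraph V} {x y : V} (h : H.Adj x y) : ind H x y = 1 := by
  simp [ind, h]

theorem props {V : Type} [Fintype V] {B R : SimpleGraph V} (hd : Disjoint B R)
    (h : O B R + D B R ≤ 0) :
    (∀ v x y, B.Adj v x → B.Adj v y → x ≠ y → B.Adj x y ∨ R.Adj x y) ∧
    (∀ v x y, R.Adj v x → R.Adj v y → ¬ (B.Adj x y ∨ R.Adj x y)) := by
  have n1 : ∀ v x y, 0 ≤ ind B v x * ind B v y * (1 - dl x y - ind B x y - ind R x y) :=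
    fun v x y => mul_nonneg (mul_nonneg (ind_nonneg _ _ _) (ind_nonneg _ _ _)) (gap_nonneg hd _ _)
  have n2 : ∀ v x y, 0 ≤ ind R v x * ind R v y * (ind B x y + ind R x y) :=
    fun v x y => mul_nonneg (mul_nonneg (ind_nonneg _ _ _) (ind_nonneg _ _ _))
      (add_nonneg (ind_nonneg _ _ _) (ind_nonneg _ _ _))
  have tri : ∀ f : V → V → V → ℤ, (∀ v x y, 0 ≤ f v x y) → ∀ v x y,
      f v x y ≤ ∑ v, ∑ x, ∑ y, f v x y := by
    intro f hf v x y
    calc f v x y ≤ ∑ y, f v x y := single_le_sum (fun y _ => hf v x y) (mem_univ y)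
      _ ≤ ∑ x, ∑ y, f v x y := single_le_sum (f := fun x => ∑ y, f v x y)
          (fun x _ => sum_nonneg fun y _ => hf v x y) (mem_univ x)
      _ ≤ _ := single_le_sum (f := fun v => ∑ x, ∑ y, f v x y)
          (fun v _ => sum_nonneg fun x _ => sum_nonneg fun y _ => hf v x y) (mem_univ v)
  have o0 : 0 ≤ O B R := sum_nonneg fun v _ => sum_nonneg fun x _ => sum_nonneg fun y _ => n1 v x y
  have d0 : 0 ≤ D B R := sum_nonneg fun v _ => sum_nonneg fun x _ => sum_nonneg fun y _ => n2 v x y
  refine ⟨fun v x y h1 h2 h3 => ?_, fun v x y h1 h2 h3 => ?_⟩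
  · by_contra hc
    rw [not_or] at hc
    have : _ ≤ O B R := tri _ n1 v x y
    rw [ind_one h1, ind_one h2] at this
    simp only [ind, dl, if_neg h3, if_neg hc.1, if_neg hc.2] at this
    omega
  · have : _ ≤ D B R := tri _ n2 v x y
    rw [ind_one h1, ind_one h2] at this
    have a := ind_nonneg B x y
    have c := ind_nonneg R x y
    rcases h3 with h3 | h3 <;> rw [ind_one h3] at this <;> omega

theorem lower {V : Type} [Fintype V] [Nonempty V] {b r : ℕ} {B R : SimpleGraph V} (h3 : 3 ≤ b)
    (hr : 2 * r + 2 = (b + 1) * b) (h : IsFlip b r B R) : (r + 1) * (b + 1) ≤ Fintype.card V := by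
  classical
  have hk := key h
  obtain ⟨hd, hb, hR, -⟩ := h
  have hz : (b : ℤ) ^ 2 + b - 2 * r - 2 = 0 := by
    have : (2 * r + 2 : ℤ) = (b + 1) * b := by exact_mod_cast hr
    linarith
  rw [hz, mul_zero] at hk
  obtain ⟨P1, P2⟩ := props hd hk
  have nb : ∀ v, #(B.neighborFinset v) = b := fun v => by
    rw [← Set.ncard_coe_finset, coe_neighborFinset, hb]
  have nr : ∀ v, #(R.neighborFinset v) = r := fun v => by
    rw [← Set.ncard_coe_finset, coe_neighborFinset, hR]
  have cA : ∀ y, #(insert y (B.neighborFinset y)) = b + 1 := fun y => by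
    rw [card_insert_of_notMem (by simp), nb]
  have dA : ∀ y z, y ≠ z → ¬ (B.Adj y z ∨ R.Adj y z) →
      Disjoint (insert y (B.neighborFinset y)) (insert z (B.neighborFinset z)) := by
    intro y z hne hn
    rw [Finset.disjoint_left]
    intro w h1 h2
    simp only [mem_insert, mem_neighborFinset] at h1 h2
    rcases h1 with rfl | h1 <;> rcases h2 with h2 | h2
    · exact hne h2
    · exact hn (Or.inl h2.symm)
    · exact hn (Or.inl (h2 ▸ h1))
    · exact hn (P1 w y z h1.symm h2.symm hne)
  by_cases hc : ∃ v, ∀ y, R.Adj v y → ∀ w, B.Adj v w → ¬ B.Adj y w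
  · obtain ⟨v, hv⟩ := hc
    have dv : ∀ y, R.Adj v y →
        Disjoint (insert v (B.neighborFinset v)) (insert y (B.neighborFinset y)) := by
      intro y hy
      rw [Finset.disjoint_left]
      intro w h1 h2
      simp only [mem_insert, mem_neighborFinset] at h1 h2
      rcases h1 with rfl | h1 <;> rcases h2 with h2 | h2
      · exact hy.ne h2
      · exact dj hd h2.symm hy
      · exact dj hd (h2 ▸ h1) hy
      · exact hv y hy w h1 h2
    have := card_le_univ ((insert v (R.neighborFinset v)).biUnion
      fun y => insert y (B.neighborFinset y))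
    rw [card_biUnion] at this
    · simp only [cA, sum_const, smul_eq_mul] at this
      rwa [card_insert_of_notMem (by simp), nr] at this
    · intro y hy z hz hne
      simp only [coe_insert, coe_neighborFinset, Set.mem_insert_iff, mem_neighborSet] at hy hz
      rcases hy with rfl | hy <;> rcases hz with rfl | hz
      · exact absurd rfl hne
      · exact dv z hz
      · exact (dv y hy).symm
      · exact dA y z hne (P2 v y z hy hz)
  · push Not at hc
    choose p hp w hw1 hw2 using hc
    have st : ∀ y u w, R.Adj y u → B.Adj y w → B.Adj u w → ∀ t, B.Adj y t → B.Adj w t →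
        B.Adj u t := by
      intro y u w h1 h2 h4 t h5 h6
      have : u ≠ t := fun e => dj hd (e ▸ h5) h1
      rcases P1 w u t h4.symm h6 this with a | a
      · exact a
      · exact absurd (Or.inl h5) (P2 u y t h1.symm a)
    have sub : ∀ y u w, R.Adj y u → B.Adj y w → B.Adj u w → ∀ t, B.Adj y t → B.Adj u t := by
      intro y u w h1 h2 h4 t h5
      by_cases e : w = t
      · exact e ▸ h4
      rcases P1 y w t h2 h5 e with a | a
      · exact st y u w h1 h2 h4 t h5 a
      · obtain ⟨s, hs, hs2⟩ : ∃ s ∈ B.neighborFinset y, s ∉ ({w, t} : Finset V) := by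
          apply exists_mem_notMem_of_card_lt_card
          rw [nb]
          exact lt_of_le_of_lt card_le_two (by omega)
        simp only [mem_insert, mem_singleton, not_or, mem_neighborFinset] at hs hs2
        have sw : B.Adj w s := by
          rcases P1 y w s h2 hs (fun e => hs2.1 e.symm) with c | c
          · exact c
          · exact absurd (P1 y s t hs h5 hs2.2) (P2 w s t c a)
        have stt : B.Adj s t := by
          rcases P1 y s t hs h5 hs2.2 with c | c
          · exact c
          · exact absurd (Or.inl sw) (P2 t w s a.symm c.symm)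
        exact st y u s h1 hs (st y u w h1 h2 h4 s hs sw) t h5 stt
    obtain ⟨v⟩ := ‹Nonempty V›
    have := card_le_univ ((R.neighborFinset v).biUnion
      fun y => insert (p y) (insert y (B.neighborFinset y)))
    have cD : ∀ y, #(insert (p y) (insert y (B.neighborFinset y))) = b + 2 := fun y => by
      rw [card_insert_of_notMem, cA]
      simp only [mem_insert, mem_neighborFinset, not_or]
      exact ⟨(hp y).ne', fun e => dj hd e (hp y)⟩
    have one : ∀ y z, y ≠ z → ¬ (B.Adj y z ∨ R.Adj y z) →
        p y ∉ insert z (B.neighborFinset z) := by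
      intro y z _ hn hm
      simp only [mem_insert, mem_neighborFinset] at hm
      rcases hm with e | e
      · exact hn (Or.inr (e ▸ hp y))
      · exact hn (Or.inl (sub (p y) y (w y) (hp y).symm (hw2 y) (hw1 y) z e.symm))
    rw [card_biUnion] at this
    · simp only [cD, sum_const, smul_eq_mul, nr] at this
      have : b + 1 ≤ r := by nlinarith
      nlinarith
    · intro y hy z hz hne
      simp only [coe_neighborFinset, mem_neighborSet] at hy hz
      have hn := P2 v y z hy hz
      have hn' := P2 v z y hz hy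
      simp only [Function.onFun]
      rw [disjoint_insert_left, disjoint_insert_right, mem_insert, not_or]
      refine ⟨⟨fun e => ?_, one y z hne hn⟩, one z y hne.symm hn', dA y z hne hn⟩
      have := sub (p z) z (w z) (hp z).symm (hw2 z) (hw1 z) (w y) (e ▸ hw2 y)
      exact hn (P1 (w y) y z (hw1 y).symm this.symm hne)

theorem result (b : ℕ) (hb : 3 ≤ b) :
    IsLeast (orders b ((b + 1).choose 2 - 1)) ((b + 1) * (b + 1).choose 2) := by
  have h2 : 2 * (b + 1).choose 2 = (b + 1) * b := by
    rw [Nat.choose_two_right, Nat.add_sub_cancel]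
    exact Nat.mul_div_cancel' (by rw [mul_comm]; exact (Nat.even_mul_succ_self b).two_dvd)
  obtain ⟨r, hr⟩ : ∃ r, (b + 1).choose 2 = r + 1 := ⟨(b + 1).choose 2 - 1, by
    have : 0 < (b + 1).choose 2 := Nat.choose_pos (by omega)
    omega⟩
  rw [hr] at h2 ⊢
  rw [Nat.add_sub_cancel, mul_comm]
  refine ⟨upper_mem b r (by omega) (by omega), ?_⟩
  rintro n ⟨V, _, _, rfl, B, R, h⟩
  have := Fintype.ofFinite V
  rw [Nat.card_eq_fintype_card]
  exact lower hb (by omega) h

end Pool.Agent.Results.MP_1e5ebc_co.Extreme
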