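import Mathlib
import Pool.Agent.H7.Flip

namespace Pool.Agent.Results.MP_1e5ebc_co.Lower

open SimpleGraph Finset Pool.Agent.H7.Flip

theorem lower {V : Type} [Fintype V] [Nonempty V] {b r : ℕ} {B R : SimpleGraph V} (hbr : b < r)
    (h : IsFlip b r B R) :
    (r * (b + 1) ^ 2 : ℤ) ≤ Fintype.card V * ((b + 1) ^ 2 - 2 * r - 2) := by
  have hk := key h
  obtain ⟨hd, hb, hR, -⟩ := h
  have sb : ∀ v, ∑ y, ind B v y = b := fun v => by rw [sum_ind, hb]
  have sr : ∀ v, ∑ y, ind R v y = r := fun v => by rw [sum_ind, hR]
  have k0 : ∀ y w, 0 ≤ dl y w + ind B y w := by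
    intro y w
    have := ind_nonneg B y w
    unfold dl
    split_ifs <;> omega
  have k1 : ∀ y w, dl y w + ind B y w ≤ 1 := by
    intro y w
    have := gap_nonneg hd y w
    have := ind_nonneg R y w
    omega
  have sk : ∀ y, ∑ w, (dl y w + ind B y w) = b + 1 := by
    intro y
    have := sum_dl y (fun _ => 1)
    simp only [mul_one] at this
    rw [sum_add_distrib, this, sb, add_comm]
  have pK : ∀ y z, ∑ w, (dl y w + ind B y w) * (dl z w + ind B z w) ≤
      (b + 1) * (dl y z + (ind B y z + ind R y z)) +
        (1 - dl y z - ind B y z - ind R y z) * ∑ w, ind B w y * ind B w z := by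
    intro y z
    by_cases hc : y ≠ z ∧ ¬ B.Adj y z ∧ ¬ R.Adj y z
    · have a1 : dl y z = 0 := by simp [dl, hc.1]
      have a2 : ind B y z = 0 := by simp [ind, hc.2.1]
      have a3 : ind R y z = 0 := by simp [ind, hc.2.2]
      rw [a1, a2, a3]
      simp only [add_zero, mul_zero, sub_zero, one_mul, zero_add]
      refine le_of_eq (sum_congr rfl fun w _ => ?_)
      by_cases e1 : y = w
      · subst e1
        have : dl z y = 0 := by simp [dl, hc.1.symm]
        rw [this, ind_comm B z y, a2, ind_self]
        simp
      · by_cases e2 : z = w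
        · subst e2
          rw [a1, a2, ind_self]
          simp
        · have b1 : dl y w = 0 := by simp [dl, e1]
          have b2 : dl z w = 0 := by simp [dl, e2]
          rw [b1, b2, ind_comm B w y, ind_comm B w z]
          simp
    · have a : dl y z + (ind B y z + ind R y z) = 1 := by
        have := gap_nonneg hd y z
        have := ind_nonneg B y z
        have := ind_nonneg R y z
        have : 0 ≤ dl y z := by unfold dl; split_ifs <;> simp
        by_cases e1 : y = z
        · have : dl y z = 1 := by simp [dl, e1]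
          omega
        · by_cases e2 : B.Adj y z
          · have : ind B y z = 1 := by simp [ind, e2]
            omega
          · have : ind R y z = 1 := by
              have : R.Adj y z := by
                by_contra e3
                exact hc ⟨e1, e2, e3⟩
              simp [ind, this]
            omega
      rw [a, show 1 - dl y z - ind B y z - ind R y z = 0 by omega, mul_one, zero_mul, add_zero,
        ← sk y]
      exact sum_le_sum fun w _ => mul_le_of_le_one_right (k0 y w) (k1 z w)
  have cs : ∀ v, ((r : ℤ) * (b + 1)) ^ 2 ≤ Fintype.card V * ∑ y, ∑ z, ind R v y * ind R v z *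
      ((b + 1) * (dl y z + (ind B y z + ind R y z)) +
        (1 - dl y z - ind B y z - ind R y z) * ∑ w, ind B w y * ind B w z) := by
    intro v
    have c := sq_sum_le_card_mul_sum_sq (s := univ)
      (f := fun w => ∑ y, ind R v y * (dl y w + ind B y w))
    rw [sum_comm] at c
    simp only [← mul_sum, sk, ← sum_mul, sr, card_univ] at c
    refine c.trans (mul_le_mul_of_nonneg_left ?_ (by positivity))
    have : ∑ w, (∑ y, ind R v y * (dl y w + ind B y w)) ^ 2 =
        ∑ y, ∑ z, ind R v y * ind R v z * ∑ w, (dl y w + ind B y w) * (dl z w + ind B z w) := by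
      simp only [sq, sum_mul_sum]
      simp only [mul_sum]
      rw [sum_comm]
      refine sum_congr rfl fun y _ => ?_
      rw [sum_comm]
      refine sum_congr rfl fun z _ => sum_congr rfl fun w _ => ?_
      ring
    rw [this]
    exact sum_le_sum fun y _ => sum_le_sum fun z _ =>
      mul_le_mul_of_nonneg_left (pK y z) (mul_nonneg (ind_nonneg _ _ _) (ind_nonneg _ _ _))
  have rr : ∀ v y, ind R v y * ind R v y = ind R v y := by
    intro v y
    unfold ind
    split_ifs <;> simp
  have tot := sum_le_sum fun v (_ : v ∈ univ) => cs v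
  rw [← mul_sum] at tot
  have split : ∑ v, ∑ y, ∑ z, ind R v y * ind R v z *
      ((b + 1) * (dl y z + (ind B y z + ind R y z)) +
        (1 - dl y z - ind B y z - ind R y z) * ∑ w, ind B w y * ind B w z) =
      (b + 1) * ∑ v, ∑ y, ind R v y * ∑ z, dl y z * ind R v z + (b + 1) * D B R +
      ∑ v, ∑ y, ∑ z, ind R v y * ind R v z *
        ((1 - dl y z - ind B y z - ind R y z) * ∑ w, ind B w y * ind B w z) := by
    simp only [D]
    simp only [mul_sum (s := univ) (f := fun z => dl _ z * ind R _ z)]
    rw [mul_sum, mul_sum, ← sum_add_distrib, ← sum_add_distrib]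
    refine sum_congr rfl fun v _ => ?_
    rw [mul_sum, mul_sum, ← sum_add_distrib, ← sum_add_distrib]
    refine sum_congr rfl fun y _ => ?_
    rw [mul_sum, mul_sum, ← sum_add_distrib, ← sum_add_distrib]
    refine sum_congr rfl fun z _ => ?_
    ring
  have last : ∑ v, ∑ y, ∑ z, ind R v y * ind R v z *
      ((1 - dl y z - ind B y z - ind R y z) * ∑ w, ind B w y * ind B w z) ≤ r * O B R := by
    have e : O B R = ∑ y, ∑ z,
        (1 - dl y z - ind B y z - ind R y z) * ∑ w, ind B w y * ind B w z := by
      unfold O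
      rw [sum_comm]
      refine sum_congr rfl fun y _ => ?_
      rw [sum_comm]
      refine sum_congr rfl fun z _ => ?_
      rw [mul_sum]
      refine sum_congr rfl fun w _ => ?_
      ring
    rw [e, sum_comm, mul_sum]
    refine sum_le_sum fun y _ => ?_
    rw [sum_comm, mul_sum]
    refine sum_le_sum fun z _ => ?_
    rw [← sum_mul]
    refine mul_le_mul_of_nonneg_right ?_ (mul_nonneg (gap_nonneg hd y z)
      (sum_nonneg fun w _ => mul_nonneg (ind_nonneg _ _ _) (ind_nonneg _ _ _)))
    rw [← sr y]
    refine sum_le_sum fun v _ => ?_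
    rw [ind_comm R y v]
    exact mul_le_of_le_one_right (ind_nonneg _ _ _) (ind_le _ _ _)
  have d0 : 0 ≤ D B R := sum_nonneg fun v _ => sum_nonneg fun x _ => sum_nonneg fun y _ =>
    mul_nonneg (mul_nonneg (ind_nonneg _ _ _) (ind_nonneg _ _ _))
      (add_nonneg (ind_nonneg _ _ _) (ind_nonneg _ _ _))
  rw [split] at tot
  simp only [sum_dl, rr, sr, sum_const, card_univ, nsmul_eq_mul] at tot
  have hn : (0 : ℤ) < Fintype.card V := by exact_mod_cast Fintype.card_pos
  have hr : (b : ℤ) + 1 ≤ r := by exact_mod_cast hbr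
  have hr0 : (0 : ℤ) < r := by omega
  have t2 := le_of_mul_le_mul_left tot hn
  have t3 : ((b : ℤ) + 1) * D B R ≤ r * D B R := mul_le_mul_of_nonneg_right hr d0
  have t4 := mul_le_mul_of_nonneg_left hk hr0.le
  refine le_of_mul_le_mul_left ?_ hr0
  nlinarith

theorem result (b r n : ℕ) (hbr : b < r) (hn : n ∈ orders b r) :
    (r * (b + 1) ^ 2 : ℤ) ≤ n * ((b + 1) ^ 2 - 2 * r - 2) := by
  obtain ⟨V, _, _, rfl, B, R, h⟩ := hn
  have := Fintype.ofFinite V
  rw [Nat.card_eq_fintype_card]
  exact lower hbr h

end Pool.Agent.Results.MP_1e5ebc_co.Lower
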