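import Mathlib
import Pool.Agent.H7.Flip

namespace Pool.Agent.Results.MP_1e5ebc_co.Upper

open Pool.Agent.H7.Flip

theorem result (b r : ℕ) (hb : 1 ≤ b) (hr : r < (b + 1).choose 2) :
    (r + 1) * (b + 1) ∈ orders b r := by
  have h2 : 2 * (b + 1).choose 2 = (b + 1) * b := by
    rw [Nat.choose_two_right, Nat.add_sub_cancel]
    exact Nat.mul_div_cancel' (by rw [mul_comm]; exact (Nat.even_mul_succ_self b).two_dvd)
  exact upper_mem b r hb (by omega)

end Pool.Agent.Results.MP_1e5ebc_co.Upper
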